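import Mathlib

/-!
The angle of a triangle of centres of three mutually tangent circles, as a function of the
logarithms of the radii.
-/

namespace Q184.Doyle

open Real

/-- angle at the circle of radius `x` in the triangle of centres of mutually tangent circles of
radii `x`, `y`, `z` -/
noncomputable def ang (x y z : ℝ) : ℝ :=
  arccos (((x + y) ^ 2 + (x + z) ^ 2 - (y + z) ^ 2) / (2 * (x + y) * (x + z)))

theorem ang_cos_eq {x y z : ℝ} (hx : 0 < x) (hy : 0 < y) (hz : 0 < z) :
    ((x + y) ^ 2 + (x + z) ^ 2 - (y + z) ^ 2) / (2 * (x + y) * (x + z)) =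
      1 - 2 * (y * z / ((x + y) * (x + z))) := by
  field_simp
  ring

/-- `sin` of half the angle -/
noncomputable def pp (x y : ℝ) : ℝ := √(y / (x + y))

theorem pp_pos {x y : ℝ} (hx : 0 < x) (hy : 0 < y) : 0 < pp x y := by
  unfold pp; positivity

theorem pp_le_one {x y : ℝ} (hx : 0 < x) (hy : 0 < y) : pp x y ≤ 1 := by
  unfold pp
  rw [Real.sqrt_le_iff]
  refine ⟨by norm_num, ?_⟩
  rw [one_pow, div_le_one (by positivity)]; linarith

theorem pp_sq {x y : ℝ} (hx : 0 < x) (hy : 0 < y) : pp x y ^ 2 = y / (x + y) := by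
  unfold pp
  rw [Real.sq_sqrt (by positivity)]

theorem ang_eq_arcsin {x y z : ℝ} (hx : 0 < x) (hy : 0 < y) (hz : 0 < z) :
    ang x y z = 2 * arcsin (pp x y * pp x z) := by
  have h1 := pp_pos hx hy
  have h2 := pp_pos hx hz
  have h3 := pp_le_one hx hy
  have h4 := pp_le_one hx hz
  have h5 : pp x y * pp x z ≤ 1 := by nlinarith
  have h6 : 0 ≤ pp x y * pp x z := by positivity
  have h7 : 0 ≤ arcsin (pp x y * pp x z) := Real.arcsin_nonneg.mpr h6
  have h8 : arcsin (pp x y * pp x z) ≤ π / 2 := Real.arcsin_le_pi_div_two _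
  unfold ang
  rw [ang_cos_eq hx hy hz]
  have h9 : 1 - 2 * (y * z / ((x + y) * (x + z))) = cos (2 * arcsin (pp x y * pp x z)) := by
    rw [Real.cos_two_mul, Real.cos_arcsin, Real.sq_sqrt (by nlinarith), mul_pow, pp_sq hx hy,
      pp_sq hx hz]
    field_simp
    ring
  rw [h9, Real.arccos_cos (by linarith) (by linarith)]

theorem ang_pos {x y z : ℝ} (hx : 0 < x) (hy : 0 < y) (hz : 0 < z) : 0 < ang x y z := by
  rw [ang_eq_arcsin hx hy hz]
  have : 0 < arcsin (pp x y * pp x z) :=
    Real.arcsin_pos.mpr (mul_pos (pp_pos hx hy) (pp_pos hx hz))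
  linarith

theorem ang_nonneg (x y z : ℝ) : 0 ≤ ang x y z := Real.arccos_nonneg _

theorem ang_le_pi (x y z : ℝ) : ang x y z ≤ π := Real.arccos_le_pi _

/-- the conductance of the edge between the circles of radii `x` and `y` in a triangle -/
noncomputable def cond (x y z : ℝ) : ℝ := √(x * y * z / (x + y + z)) / (x + y)

theorem cond_comm (x y z : ℝ) : cond x y z = cond y x z := by
  unfold cond
  rw [show y * x * z = x * y * z by ring, show y + x + z = x + y + z by ring, add_comm y x]

theorem cond_le {x y z : ℝ} (hx : 0 < x) (hy : 0 < y) (hz : 0 < z) : cond x y z ≤ 1 / 2 := by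
  unfold cond
  rw [div_le_iff₀ (by positivity)]
  apply Real.sqrt_le_iff.mpr
  refine ⟨by positivity, ?_⟩
  rw [div_le_iff₀ (by positivity)]
  nlinarith [sq_nonneg (x - y), mul_pos hx hy, mul_pos (mul_pos hx hy) hz, mul_pos hx hz,
    mul_pos hy hz, sq_nonneg (x + y), mul_pos (mul_pos hx hx) hz, mul_pos (mul_pos hy hy) hz,
    pow_pos hx 3, pow_pos hy 3, mul_pos (mul_pos hx hx) hy, mul_pos (mul_pos hy hy) hx,
    mul_nonneg hz.le (sq_nonneg (x - y)), mul_nonneg hx.le (sq_nonneg (x - y)),
    mul_nonneg hy.le (sq_nonneg (x - y))]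

/-- derivative of the angle along a straight line in the logarithms of the radii -/
theorem hasDerivAt_ang (a b c wa wb wc t : ℝ) :
    HasDerivAt (fun s => ang (exp (a + s * wa)) (exp (b + s * wb)) (exp (c + s * wc)))
      (cond (exp (a + t * wa)) (exp (b + t * wb)) (exp (c + t * wc)) * (wb - wa) +
        cond (exp (a + t * wa)) (exp (c + t * wc)) (exp (b + t * wb)) * (wc - wa)) t := by
  set x := exp (a + t * wa) with hx
  set y := exp (b + t * wb) with hy
  set z := exp (c + t * wc) with hz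
  have px : 0 < x := Real.exp_pos _
  have py : 0 < y := Real.exp_pos _
  have pz : 0 < z := Real.exp_pos _
  have dx : HasDerivAt (fun s => exp (a + s * wa)) (x * wa) t := by
    have : HasDerivAt (fun s => a + s * wa) wa t := by
      simpa using ((hasDerivAt_id t).mul_const wa).const_add a
    exact this.exp
  have dy : HasDerivAt (fun s => exp (b + s * wb)) (y * wb) t := by
    have : HasDerivAt (fun s => b + s * wb) wb t := by
      simpa using ((hasDerivAt_id t).mul_const wb).const_add b
    exact this.exp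
  have dz : HasDerivAt (fun s => exp (c + s * wc)) (z * wc) t := by
    have : HasDerivAt (fun s => c + s * wc) wc t := by
      simpa using ((hasDerivAt_id t).mul_const wc).const_add c
    exact this.exp
  -- the function inside arccos
  have hfun : (fun s => ang (exp (a + s * wa)) (exp (b + s * wb)) (exp (c + s * wc))) =
      fun s => arccos (1 - 2 * (exp (b + s * wb) * exp (c + s * wc) /
        ((exp (a + s * wa) + exp (b + s * wb)) * (exp (a + s * wa) + exp (c + s * wc))))) := by
    funext s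
    unfold ang
    rw [ang_cos_eq (Real.exp_pos _) (Real.exp_pos _) (Real.exp_pos _)]
  rw [hfun]
  set q := y * z / ((x + y) * (x + z)) with hq
  have hq0 : 0 < q := by positivity
  have h1q : 1 - q = x * (x + y + z) / ((x + y) * (x + z)) := by
    rw [hq]; field_simp; ring
  have hq1 : 0 < 1 - q := by rw [h1q]; positivity
  have dq : HasDerivAt (fun s => exp (b + s * wb) * exp (c + s * wc) /
        ((exp (a + s * wa) + exp (b + s * wb)) * (exp (a + s * wa) + exp (c + s * wc))))
      (q * (x * (wb - wa) / (x + y) + x * (wc - wa) / (x + z))) t := by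
    have h1 := (dy.mul dz).div ((dx.add dy).mul (dx.add dz))
      (show ((fun s => exp (a + s * wa)) + fun s => exp (b + s * wb)) t *
        ((fun s => exp (a + s * wa)) + fun s => exp (c + s * wc)) t ≠ 0 by
          simp only [Pi.add_apply]
          have : 0 < (x + y) * (x + z) := by positivity
          exact this.ne')
    refine h1.congr_deriv ?_
    simp only [Pi.add_apply, Pi.mul_apply]
    rw [← hx, ← hy, ← hz, hq]
    field_simp
    ring
  have du : HasDerivAt (fun s => 1 - 2 * (exp (b + s * wb) * exp (c + s * wc) /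
        ((exp (a + s * wa) + exp (b + s * wb)) * (exp (a + s * wa) + exp (c + s * wc)))))
      (-(2 * (q * (x * (wb - wa) / (x + y) + x * (wc - wa) / (x + z))))) t :=
    (dq.const_mul 2).const_sub 1
  have hne1 : (1 - 2 * q : ℝ) ≠ -1 := by intro h; linarith
  have hne2 : (1 - 2 * q : ℝ) ≠ 1 := by intro h; linarith
  have dacos := (Real.hasDerivAt_arccos hne1 hne2).comp t du
  refine dacos.congr_deriv ?_
  -- evaluate
  have hs : √(1 - (1 - 2 * q) ^ 2) = 2 * (√(x * y * z / (x + y + z)) *
      ((x + y + z) / ((x + y) * (x + z)))) := by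
    have e1 : 1 - (1 - 2 * q) ^ 2 = (2 * (√(x * y * z / (x + y + z)) *
      ((x + y + z) / ((x + y) * (x + z))))) ^ 2 := by
      rw [mul_pow, mul_pow, Real.sq_sqrt (by positivity)]
      have : 1 - (1 - 2 * q) ^ 2 = 4 * (q * (1 - q)) := by ring
      rw [this, h1q, hq]
      field_simp
      ring
    rw [e1, Real.sqrt_sq (by positivity)]
  rw [hs]
  unfold cond
  set ρ := √(x * y * z / (x + y + z)) with hρ
  have hρ0 : 0 < ρ := by rw [hρ]; positivity
  have hρ2 : ρ ^ 2 = x * y * z / (x + y + z) := by rw [hρ, Real.sq_sqrt (by positivity)]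
  have hρ' : √(x * z * y / (x + z + y)) = ρ := by
    rw [hρ]; congr 1; ring_nf
  rw [hρ']
  have hqρ : q = ρ ^ 2 * (x + y + z) / (x * ((x + y) * (x + z))) := by
    rw [hρ2, hq]; field_simp
  rw [hqρ]
  field_simp

/-- lower bound of the conductances -/
noncomputable def lam (κ : ℝ) : ℝ := √(exp (-2 * κ) / (3 * exp κ)) / (2 * exp κ)

theorem lam_pos (κ : ℝ) : 0 < lam κ := by unfold lam; positivity

theorem lam_le_cond {κ a b c : ℝ} (hκ : 0 ≤ κ) (hab : |a - b| ≤ κ) (hac : |a - c| ≤ κ) :
    lam κ ≤ cond (exp a) (exp b) (exp c) := by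
  rw [abs_le] at hab hac
  have e1 : cond (exp a) (exp b) (exp c) =
      √(exp (b - a) * exp (c - a) / (1 + exp (b - a) + exp (c - a))) / (1 + exp (b - a)) := by
    have hb : exp b = exp a * exp (b - a) := by rw [← Real.exp_add]; ring_nf
    have hc : exp c = exp a * exp (c - a) := by rw [← Real.exp_add]; ring_nf
    have pa := Real.exp_pos a
    have pb := Real.exp_pos (b - a)
    have pc := Real.exp_pos (c - a)
    unfold cond
    rw [hb, hc]
    have : exp a * (exp a * exp (b - a)) * (exp a * exp (c - a)) /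
        (exp a + exp a * exp (b - a) + exp a * exp (c - a)) =
        exp a ^ 2 * (exp (b - a) * exp (c - a) / (1 + exp (b - a) + exp (c - a))) := by
      field_simp
    rw [this, Real.sqrt_mul (by positivity), Real.sqrt_sq pa.le]
    field_simp
  rw [e1]
  unfold lam
  have k1 : exp (b - a) ≤ exp κ := Real.exp_le_exp.mpr (by linarith)
  have k2 : exp (c - a) ≤ exp κ := Real.exp_le_exp.mpr (by linarith)
  have k3 : exp (-κ) ≤ exp (b - a) := Real.exp_le_exp.mpr (by linarith)
  have k4 : exp (-κ) ≤ exp (c - a) := Real.exp_le_exp.mpr (by linarith)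
  have k5 : 1 ≤ exp κ := Real.one_le_exp hκ
  have k6 : exp (-2 * κ) ≤ exp (b - a) * exp (c - a) := by
    rw [← Real.exp_add]; exact Real.exp_le_exp.mpr (by linarith)
  have pb := Real.exp_pos (b - a)
  have pc := Real.exp_pos (c - a)
  apply div_le_div₀ (Real.sqrt_nonneg _) _ (by positivity) (by linarith)
  apply Real.sqrt_le_sqrt
  apply div_le_div₀ (by positivity) k6 (by positivity) (by linarith)

/-- mean value form of the variation of the angles of a triangle -/
theorem face_mvt {κ a b c wa wb wc ga gb gc : ℝ} (hκ : 0 ≤ κ)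
    (hab : |a - b| ≤ κ) (hac : |a - c| ≤ κ) (hbc : |b - c| ≤ κ)
    (hab' : |(a + wa) - (b + wb)| ≤ κ) (hac' : |(a + wa) - (c + wc)| ≤ κ)
    (hbc' : |(b + wb) - (c + wc)| ≤ κ) :
    ∃ c1 c2 c3 : ℝ, (lam κ ≤ c1 ∧ c1 ≤ 1 / 2) ∧ (lam κ ≤ c2 ∧ c2 ≤ 1 / 2) ∧
      (lam κ ≤ c3 ∧ c3 ≤ 1 / 2) ∧
      ga * (ang (exp (a + wa)) (exp (b + wb)) (exp (c + wc)) - ang (exp a) (exp b) (exp c)) +
      gb * (ang (exp (b + wb)) (exp (c + wc)) (exp (a + wa)) - ang (exp b) (exp c) (exp a)) +
      gc * (ang (exp (c + wc)) (exp (a + wa)) (exp (b + wb)) - ang (exp c) (exp a) (exp b)) =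
      -(c1 * (wa - wb) * (ga - gb) + c2 * (wa - wc) * (ga - gc) + c3 * (wb - wc) * (gb - gc)) := by
  let F : ℝ → ℝ := fun s =>
    ga * ang (exp (a + s * wa)) (exp (b + s * wb)) (exp (c + s * wc)) +
    gb * ang (exp (b + s * wb)) (exp (c + s * wc)) (exp (a + s * wa)) +
    gc * ang (exp (c + s * wc)) (exp (a + s * wa)) (exp (b + s * wb))
  let F' : ℝ → ℝ := fun t =>
    ga * (cond (exp (a + t * wa)) (exp (b + t * wb)) (exp (c + t * wc)) * (wb - wa) +
        cond (exp (a + t * wa)) (exp (c + t * wc)) (exp (b + t * wb)) * (wc - wa)) +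
    gb * (cond (exp (b + t * wb)) (exp (c + t * wc)) (exp (a + t * wa)) * (wc - wb) +
        cond (exp (b + t * wb)) (exp (a + t * wa)) (exp (c + t * wc)) * (wa - wb)) +
    gc * (cond (exp (c + t * wc)) (exp (a + t * wa)) (exp (b + t * wb)) * (wa - wc) +
        cond (exp (c + t * wc)) (exp (b + t * wb)) (exp (a + t * wa)) * (wb - wc))
  have hF : ∀ t, HasDerivAt F (F' t) t := by
    intro t
    exact (((hasDerivAt_ang a b c wa wb wc t).const_mul ga).add
      ((hasDerivAt_ang b c a wb wc wa t).const_mul gb)).add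
      ((hasDerivAt_ang c a b wc wa wb t).const_mul gc)
  obtain ⟨t, ht, hmv⟩ := exists_hasDerivAt_eq_slope F F' (show (0:ℝ) < 1 by norm_num)
    (fun x _ => (hF x).continuousAt.continuousWithinAt) (fun x _ => hF x)
  obtain ⟨ht0, ht1⟩ := ht
  -- bounds at the intermediate point
  have conv : ∀ u v : ℝ, |u| ≤ κ → |v| ≤ κ → |(1 - t) * u + t * v| ≤ κ := by
    intro u v hu hv
    calc |(1 - t) * u + t * v| ≤ |(1 - t) * u| + |t * v| := abs_add_le _ _
      _ = (1 - t) * |u| + t * |v| := by
          rw [abs_mul, abs_mul, abs_of_pos (by linarith : 0 < 1 - t), abs_of_pos ht0]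
      _ ≤ (1 - t) * κ + t * κ := by
          have := mul_le_mul_of_nonneg_left hu (by linarith : (0:ℝ) ≤ 1 - t)
          have := mul_le_mul_of_nonneg_left hv ht0.le
          linarith
      _ = κ := by ring
  have m1 : |(a + t * wa) - (b + t * wb)| ≤ κ := by
    have := conv _ _ hab hab'
    rw [show (1 - t) * (a - b) + t * (a + wa - (b + wb)) = (a + t * wa) - (b + t * wb) by ring]
      at this
    exact this
  have m2 : |(a + t * wa) - (c + t * wc)| ≤ κ := by
    have := conv _ _ hac hac'
    rw [show (1 - t) * (a - c) + t * (a + wa - (c + wc)) = (a + t * wa) - (c + t * wc) by ring]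
      at this
    exact this
  have m3 : |(b + t * wb) - (c + t * wc)| ≤ κ := by
    have := conv _ _ hbc hbc'
    rw [show (1 - t) * (b - c) + t * (b + wb - (c + wc)) = (b + t * wb) - (c + t * wc) by ring]
      at this
    exact this
  have m1' : |(b + t * wb) - (a + t * wa)| ≤ κ := by rw [abs_sub_comm]; exact m1
  have m2' : |(c + t * wc) - (a + t * wa)| ≤ κ := by rw [abs_sub_comm]; exact m2
  have m3' : |(c + t * wc) - (b + t * wb)| ≤ κ := by rw [abs_sub_comm]; exact m3
  refine ⟨cond (exp (a + t * wa)) (exp (b + t * wb)) (exp (c + t * wc)),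
    cond (exp (a + t * wa)) (exp (c + t * wc)) (exp (b + t * wb)),
    cond (exp (b + t * wb)) (exp (c + t * wc)) (exp (a + t * wa)),
    ⟨lam_le_cond hκ m1 m2, cond_le (exp_pos _) (exp_pos _) (exp_pos _)⟩,
    ⟨lam_le_cond hκ m2 m1, cond_le (exp_pos _) (exp_pos _) (exp_pos _)⟩,
    ⟨lam_le_cond hκ m3 m1', cond_le (exp_pos _) (exp_pos _) (exp_pos _)⟩, ?_⟩
  have e1 : F 1 - F 0 = F' t := by rw [hmv]; ring
  have e2 : F 1 - F 0 = ga * (ang (exp (a + wa)) (exp (b + wb)) (exp (c + wc)) -
        ang (exp a) (exp b) (exp c)) +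
      gb * (ang (exp (b + wb)) (exp (c + wc)) (exp (a + wa)) - ang (exp b) (exp c) (exp a)) +
      gc * (ang (exp (c + wc)) (exp (a + wa)) (exp (b + wb)) - ang (exp c) (exp a) (exp b)) := by
    simp only [F]
    rw [one_mul, one_mul, one_mul, zero_mul, zero_mul, zero_mul, add_zero, add_zero, add_zero]
    ring
  rw [← e2, e1]
  simp only [F']
  rw [cond_comm (exp (b + t * wb)) (exp (a + t * wa)),
    cond_comm (exp (c + t * wc)) (exp (a + t * wa)),
    cond_comm (exp (c + t * wc)) (exp (b + t * wb))]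
  ring

end Q184.Doyle
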