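import Pool.Agent.Q184.Doyle.Net

/-!
Doyle's conjecture: locally univalent circle packings for the hexagonal complex.
-/

namespace Q184.Doyle

open Real Finset

theorem affine_of_steps {f : ℤ × ℤ → ℝ} {α β : ℝ} (h0 : ∀ q, f (q + dir 0) = f q + α)
    (h1 : ∀ q, f (q + dir 1) = f q + β) (n m : ℤ) : f (n, m) = f (0, 0) + n * α + m * β := by
  have e0 : ∀ n m : ℤ, f (n + 1, m) = f (n, m) + α := by
    intro n m
    have := h0 (n, m)
    simpa [dir] using this
  have e1 : ∀ n m : ℤ, f (n, m + 1) = f (n, m) + β := by
    intro n m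
    have := h1 (n, m)
    simpa [dir] using this
  have r0 : ∀ n : ℤ, f (n, 0) = f (0, 0) + n * α := by
    intro n
    induction n using Int.induction_on with
    | zero => simp
    | succ i ih => rw [e0, ih]; push_cast; ring
    | pred i ih =>
      have := e0 (-(i : ℤ) - 1) 0
      rw [sub_add_cancel, ih] at this
      push_cast at this ⊢
      linarith
  induction m using Int.induction_on with
  | zero => rw [r0]; simp
  | succ i ih => rw [e1, ih]; push_cast; ring
  | pred i ih =>
    have := e1 n (-(i : ℤ) - 1)
    rw [sub_add_cancel, ih] at this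
    push_cast at this ⊢
    linarith

theorem kappa_nonneg : 0 ≤ -2 * log cstar := by
  have := Real.log_nonpos cstar_pos.le cstar_le_one
  linarith

theorem shift_const {R : ℤ × ℤ → ℝ} {z : ℤ × ℤ → ℂ} (hP : IsPacking R z)
    (hU : LocallyUnivalent R z) (j : Fin 6) (q : ℤ × ℤ) :
    (log (R (q + dir 0 + dir j)) - log (R (q + dir 0)) = log (R (q + dir j)) - log (R q)) ∧
    (log (R (q + dir 1 + dir j)) - log (R (q + dir 1)) = log (R (q + dir j)) - log (R q)) := by
  have hb := log_bound hP hU
  apply liouville (L := fun v => log (R v)) (w := fun v => log (R (v + dir j)) - log (R v))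
    kappa_nonneg (W := -2 * log cstar)
  · exact hb
  · intro v k
    have := hb (v + dir j) k
    have e : v + dir j + dir k = v + dir k + dir j := by abel
    rw [e] at this
    simpa using this
  · intro v
    rw [abs_sub_comm]
    exact hb v j
  · intro v
    have e1 : ∀ v, exp (log (R v)) = R v := fun v => Real.exp_log (hP.pos v)
    have e2 : ∀ v, exp (log (R v) + (log (R (v + dir j)) - log (R v))) = R (v + dir j) := by
      intro v
      rw [add_sub_cancel, Real.exp_log (hP.pos _)]
    simp only [dA, e1, e2]
    rw [Finset.sum_sub_distrib, hP.angleSum v]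
    have e3 : ∑ k : Fin 6, ang (R (v + dir j)) (R (v + dir k + dir j))
        (R (v + dir (k + 1) + dir j)) = 2 * π := by
      rw [← hP.angleSum (v + dir j)]
      apply Finset.sum_congr rfl
      intro k _
      rw [add_right_comm v (dir k), add_right_comm v (dir (k + 1))]
    rw [e3, sub_self]

/-- **Doyle's conjecture.** -/
theorem doyle {R : ℤ × ℤ → ℝ} {z : ℤ × ℤ → ℂ} (hP : IsPacking R z)
    (hU : LocallyUnivalent R z) :
    ∃ a b c : ℝ, 0 < a ∧ 0 < b ∧ 0 < c ∧ ∀ n m : ℤ, R (n, m) = c * a ^ n * b ^ m := by
  have hc : ∀ (j : Fin 6) (q : ℤ × ℤ), log (R (q + dir j)) - log (R q) =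
      log (R ((0, 0) + dir j)) - log (R (0, 0)) := by
    intro j q
    have h := affine_of_steps (f := fun q => log (R (q + dir j)) - log (R q)) (α := 0) (β := 0)
      (fun q => by rw [add_zero]; exact (shift_const hP hU j q).1)
      (fun q => by rw [add_zero]; exact (shift_const hP hU j q).2) q.1 q.2
    simpa using h
  have h := affine_of_steps (f := fun q => log (R q))
    (α := log (R ((0, 0) + dir 0)) - log (R (0, 0)))
    (β := log (R ((0, 0) + dir 1)) - log (R (0, 0)))
    (fun q => by have := hc 0 q; linarith) (fun q => by have := hc 1 q; linarith)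
  refine ⟨exp (log (R ((0, 0) + dir 0)) - log (R (0, 0))),
    exp (log (R ((0, 0) + dir 1)) - log (R (0, 0))), R (0, 0), Real.exp_pos _, Real.exp_pos _,
    hP.pos _, ?_⟩
  intro n m
  have h1 := h n m
  rw [← Real.exp_log (hP.pos (n, m)), h1, Real.exp_add, Real.exp_add, Real.exp_log (hP.pos _),
    mul_comm (n : ℝ), mul_comm (m : ℝ), Real.exp_mul, Real.exp_mul, Real.rpow_intCast,
    Real.rpow_intCast]

end Q184.Doyle
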