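import Pool.Agent.Q184.Doyle.Ring

/-!
A Liouville theorem for labels of the hexagonal complex with equal angle sums.
-/

namespace Q184.Doyle

open Real Finset

/-- the sum of a function of edges over the six edges of the two faces based at `p` -/
def fsum (F : ℤ × ℤ → ℤ × ℤ → ℝ) (p : ℤ × ℤ) : ℝ :=
  (F p (p + dir 0) + F p (p + dir 1) + F (p + dir 0) (p + dir 1)) +
    (F p (p + dir 1) + F p (p + dir 2) + F (p + dir 1) (p + dir 2))

theorem edge_ineq {c l W wi wj ei ej : ℝ} (hl : 0 ≤ l) (hc : l ≤ c) (hc2 : c ≤ 1 / 2)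
    (hwi : |wi| ≤ W) (hwj : |wj| ≤ W) :
    l / 4 * ((ei ^ 2 + ej ^ 2) * (wi - wj) ^ 2) - W ^ 2 * (ei - ej) ^ 2 ≤
      c * (wi - wj) * (ei ^ 2 * wi - ej ^ 2 * wj) := by
  have hW0 : 0 ≤ W := (abs_nonneg _).trans hwi
  have hM : (wi + wj) ^ 2 ≤ 4 * W ^ 2 := by
    have h1 : |wi + wj| ≤ 2 * W := (abs_add_le _ _).trans (by linarith)
    have h2 := pow_le_pow_left₀ (abs_nonneg _) h1 2
    rw [sq_abs] at h2
    linarith
  set X := (wi - wj) * (ei ^ 2 * wi - ej ^ 2 * wj) + 2 * W ^ 2 * (ei - ej) ^ 2 with hX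
  set Y := (ei ^ 2 + ej ^ 2) * (wi - wj) ^ 2 with hY
  have hY0 : 0 ≤ Y := by positivity
  have hXY : Y / 4 ≤ X := by
    have e1 : X - Y / 4 = ((ei + ej) * (wi - wj) / 2 + (ei - ej) * (wi + wj)) ^ 2 / 2 +
        (ei - ej) ^ 2 * (wi - wj) ^ 2 / 8 +
        (ei - ej) ^ 2 * (4 * W ^ 2 - (wi + wj) ^ 2) / 2 := by
      rw [hX, hY]; ring
    have e2 : 0 ≤ (ei - ej) ^ 2 * (4 * W ^ 2 - (wi + wj) ^ 2) / 2 := by
      have : 0 ≤ 4 * W ^ 2 - (wi + wj) ^ 2 := by linarith
      positivity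
    have e3 : 0 ≤ ((ei + ej) * (wi - wj) / 2 + (ei - ej) * (wi + wj)) ^ 2 / 2 +
        (ei - ej) ^ 2 * (wi - wj) ^ 2 / 8 := by positivity
    linarith
  have hX0 : 0 ≤ X := by linarith
  have h1 : l * (Y / 4) ≤ c * X :=
    mul_le_mul hc hXY (by positivity) (hl.trans hc)
  have h2 : c * (2 * W ^ 2 * (ei - ej) ^ 2) ≤ W ^ 2 * (ei - ej) ^ 2 := by
    have : 0 ≤ W ^ 2 * (ei - ej) ^ 2 := by positivity
    nlinarith
  have h3 : c * X = c * (wi - wj) * (ei ^ 2 * wi - ej ^ 2 * wj) +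
      c * (2 * W ^ 2 * (ei - ej) ^ 2) := by rw [hX]; ring
  linarith

/-- shifts -/
def shf : Fin 6 → ℤ × ℤ := ![0, 0, dir 0, dir 1, dir 1, dir 2]

section liou

variable {L w : ℤ × ℤ → ℝ} {κ W : ℝ}

/-- difference of the angles at `v` -/
noncomputable def dA (L w : ℤ × ℤ → ℝ) (k : Fin 6) (v : ℤ × ℤ) : ℝ :=
  ang (exp (L v + w v)) (exp (L (v + dir k) + w (v + dir k)))
    (exp (L (v + dir (k + 1)) + w (v + dir (k + 1)))) -
  ang (exp (L v)) (exp (L (v + dir k))) (exp (L (v + dir (k + 1))))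

theorem face_pair (hκ : 0 ≤ κ) (hL : ∀ v k, |L v - L (v + dir k)| ≤ κ)
    (hL' : ∀ v k, |(L v + w v) - (L (v + dir k) + w (v + dir k))| ≤ κ)
    (hW : ∀ v, |w v| ≤ W) (η : ℤ × ℤ → ℝ) (p : ℤ × ℤ) :
    ∑ k : Fin 6, η (p + shf k) ^ 2 * w (p + shf k) * dA L w k (p + shf k) ≤
      W ^ 2 * fsum (fun i j => (η i - η j) ^ 2) p -
      lam κ / 4 * fsum (fun i j => (η i ^ 2 + η j ^ 2) * (w i - w j) ^ 2) p := by
  have hl := (lam_pos κ).le
  have a02 : p + dir 0 + dir 2 = p + dir 1 := by rw [add_assoc]; rfl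
  have a03 : p + dir 0 + dir 3 = p := by
    rw [add_assoc]; show p + (dir 0 + dir 3) = p; rw [show dir 0 + dir 3 = 0 by decide, add_zero]
  have a14 : p + dir 1 + dir 4 = p := by
    rw [add_assoc]; show p + (dir 1 + dir 4) = p; rw [show dir 1 + dir 4 = 0 by decide, add_zero]
  have a15 : p + dir 1 + dir 5 = p + dir 0 := by
    rw [add_assoc, show dir 1 + dir 5 = dir 0 by decide]
  have a13 : p + dir 1 + dir 3 = p + dir 2 := by
    rw [add_assoc, show dir 1 + dir 3 = dir 2 by decide]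
  have a25 : p + dir 2 + dir 5 = p := by
    rw [add_assoc, show dir 2 + dir 5 = 0 by decide, add_zero]
  have a20 : p + dir 2 + dir 0 = p + dir 1 := by
    rw [add_assoc, show dir 2 + dir 0 = dir 1 by decide]
  have b1 := hL (p + dir 0) 2
  have b1' := hL' (p + dir 0) 2
  have b2 := hL (p + dir 1) 3
  have b2' := hL' (p + dir 1) 3
  rw [a02] at b1 b1'
  rw [a13] at b2 b2'
  obtain ⟨c1, c2, c3, h1, h2, h3, e⟩ := face_mvt (ga := η p ^ 2 * w p)
    (gb := η (p + dir 0) ^ 2 * w (p + dir 0)) (gc := η (p + dir 1) ^ 2 * w (p + dir 1))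
    hκ (hL p 0) (hL p 1) b1 (hL' p 0) (hL' p 1) b1'
  obtain ⟨c1', c2', c3', h1', h2', h3', e'⟩ := face_mvt (ga := η p ^ 2 * w p)
    (gb := η (p + dir 1) ^ 2 * w (p + dir 1)) (gc := η (p + dir 2) ^ 2 * w (p + dir 2))
    hκ (hL p 1) (hL p 2) b2 (hL' p 1) (hL' p 2) b2'
  rw [Fin.sum_univ_six]
  simp only [shf, Matrix.cons_val_zero, Matrix.cons_val_one, Matrix.cons_val, add_zero]
  unfold dA
  rw [show (0 : Fin 6) + 1 = 1 by rfl, show (1 : Fin 6) + 1 = 2 by rfl,
    show (2 : Fin 6) + 1 = 3 by rfl, show (3 : Fin 6) + 1 = 4 by rfl,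
    show (4 : Fin 6) + 1 = 5 by rfl, show (5 : Fin 6) + 1 = 0 by rfl,
    a02, a03, a13, a14, a15, a25, a20]
  have i1 := edge_ineq (ei := η p) (ej := η (p + dir 0)) hl h1.1 h1.2 (hW p) (hW (p + dir 0))
  have i2 := edge_ineq (ei := η p) (ej := η (p + dir 1)) hl h2.1 h2.2 (hW p) (hW (p + dir 1))
  have i3 := edge_ineq (ei := η (p + dir 0)) (ej := η (p + dir 1)) hl h3.1 h3.2
    (hW (p + dir 0)) (hW (p + dir 1))
  have j1 := edge_ineq (ei := η p) (ej := η (p + dir 1)) hl h1'.1 h1'.2 (hW p) (hW (p + dir 1))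
  have j2 := edge_ineq (ei := η p) (ej := η (p + dir 2)) hl h2'.1 h2'.2 (hW p) (hW (p + dir 2))
  have j3 := edge_ineq (ei := η (p + dir 1)) (ej := η (p + dir 2)) hl h3'.1 h3'.2
    (hW (p + dir 1)) (hW (p + dir 2))
  unfold fsum
  linarith

theorem finite_shift {f : ℤ × ℤ → ℝ} (hf : (Function.support f).Finite) (s : ℤ × ℤ) :
    (Function.support fun p => f (p + s)).Finite := by
  have : (Function.support fun p => f (p + s)) = (fun p => p + s) ⁻¹' Function.support f := rfl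
  rw [this]
  exact hf.preimage (fun a _ b _ h => add_right_cancel h)

theorem liouville_ineq (hκ : 0 ≤ κ) (hL : ∀ v k, |L v - L (v + dir k)| ≤ κ)
    (hL' : ∀ v k, |(L v + w v) - (L (v + dir k) + w (v + dir k))| ≤ κ)
    (hW : ∀ v, |w v| ≤ W) (hA : ∀ v, ∑ k : Fin 6, dA L w k v = 0)
    {η : ℤ × ℤ → ℝ} (hη : (Function.support η).Finite) (q : ℤ × ℤ) :
    lam κ / 4 * fsum (fun i j => (η i ^ 2 + η j ^ 2) * (w i - w j) ^ 2) q ≤
      W ^ 2 * ∑' p, fsum (fun i j => (η i - η j) ^ 2) p := by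
  have hl := (lam_pos κ).le
  set f : Fin 6 → ℤ × ℤ → ℝ := fun k v => η v ^ 2 * w v * dA L w k v with hf
  have hfsupp : ∀ k, (Function.support (f k)).Finite := by
    intro k
    refine hη.subset fun v hv => ?_
    rw [Function.mem_support] at hv ⊢
    intro h0
    apply hv
    simp [hf, h0]
  have hfs : ∀ k, Summable (f k) := fun k => summable_of_hasFiniteSupport (hfsupp k)
  have hfs' : ∀ k, Summable fun p => f k (p + shf k) := fun k =>
    summable_of_hasFiniteSupport (finite_shift (hfsupp k) _)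
  have h0 : ∑' p, ∑ k : Fin 6, f k (p + shf k) = 0 := by
    rw [Summable.tsum_finsetSum fun k _ => hfs' k]
    have : ∀ k : Fin 6, ∑' p, f k (p + shf k) = ∑' p, f k p := fun k =>
      (Equiv.addRight (shf k)).tsum_eq (f k)
    simp_rw [this]
    rw [← Summable.tsum_finsetSum fun k _ => hfs k]
    have hz : ∀ v, ∑ k : Fin 6, f k v = 0 := by
      intro v
      simp only [hf]
      rw [← Finset.mul_sum, hA v, mul_zero]
    simp_rw [hz]
    exact tsum_zero
  set S : ℤ × ℤ → ℝ := fsum (fun i j => (η i ^ 2 + η j ^ 2) * (w i - w j) ^ 2) with hS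
  set E : ℤ × ℤ → ℝ := fsum (fun i j => (η i - η j) ^ 2) with hE
  have hunion : (Function.support η ∪ Function.support (fun p => η (p + dir 0)) ∪
      Function.support (fun p => η (p + dir 1)) ∪
      Function.support (fun p => η (p + dir 2))).Finite :=
    ((hη.union (finite_shift hη _)).union (finite_shift hη _)).union (finite_shift hη _)
  have hzero : ∀ p, p ∉ (Function.support η ∪ Function.support (fun p => η (p + dir 0)) ∪
      Function.support (fun p => η (p + dir 1)) ∪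
      Function.support (fun p => η (p + dir 2))) →
      η p = 0 ∧ η (p + dir 0) = 0 ∧ η (p + dir 1) = 0 ∧ η (p + dir 2) = 0 := by
    intro p hp
    simp only [Set.mem_union, Function.mem_support, not_or, not_not] at hp
    exact ⟨hp.1.1.1, hp.1.1.2, hp.1.2, hp.2⟩
  have hSs : (Function.support S).Finite := by
    refine hunion.subset fun p hp => ?_
    by_contra hcon
    obtain ⟨z0, z1, z2, z3⟩ := hzero p hcon
    apply hp
    simp [hS, fsum, z0, z1, z2, z3]
  have hEs : (Function.support E).Finite := by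
    refine hunion.subset fun p hp => ?_
    by_contra hcon
    obtain ⟨z0, z1, z2, z3⟩ := hzero p hcon
    apply hp
    simp [hE, fsum, z0, z1, z2, z3]
  have sS : Summable S := summable_of_hasFiniteSupport hSs
  have sE : Summable E := summable_of_hasFiniteSupport hEs
  have hS0 : ∀ p, 0 ≤ S p := by
    intro p
    simp only [hS, fsum]
    positivity
  have hle : ∑' p, ∑ k : Fin 6, f k (p + shf k) ≤ ∑' p, (W ^ 2 * E p - lam κ / 4 * S p) := by
    apply Summable.tsum_le_tsum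
    · intro p
      exact face_pair hκ hL hL' hW η p
    · exact summable_sum fun k _ => hfs' k
    · exact (sE.mul_left _).sub (sS.mul_left _)
  rw [h0, Summable.tsum_sub (sE.mul_left _) (sS.mul_left _), tsum_mul_left, tsum_mul_left] at hle
  have hq : S q ≤ ∑' p, S p := sS.le_tsum q fun p _ => hS0 p
  have : lam κ / 4 * S q ≤ lam κ / 4 * ∑' p, S p := mul_le_mul_of_nonneg_left hq (by positivity)
  linarith

end liou

/-! ### cutoff functions -/

/-- harmonic sums -/
noncomputable def Hs (n : ℕ) : ℝ := ∑ i ∈ range n, 1 / ((i : ℝ) + 1)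

theorem Hs_succ (n : ℕ) : Hs (n + 1) = Hs n + 1 / ((n : ℝ) + 1) := by
  unfold Hs; rw [Finset.sum_range_succ]

theorem Hs_mono : Monotone Hs := by
  apply monotone_nat_of_le_succ
  intro n
  rw [Hs_succ]
  have : (0 : ℝ) < 1 / ((n : ℝ) + 1) := by positivity
  linarith

theorem Hs_nonneg (n : ℕ) : 0 ≤ Hs n := by unfold Hs; positivity

/-- the norm -/
def nrm (v : ℤ × ℤ) : ℕ := max v.1.natAbs v.2.natAbs

/-- the cutoff function -/
noncomputable def cut (n : ℕ) (v : ℤ × ℤ) : ℝ := max (1 - Hs (nrm v) / Hs n) 0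

theorem Hs_gap (k : ℕ) : Hs (k + 1) - Hs (k - 1) ≤ 2 / (max k 1 : ℕ) := by
  rcases k with _ | k
  · simp [Hs]
  · have h1 := Hs_succ (k + 1)
    have h2 := Hs_succ k
    have e1 : max (k + 1) 1 = k + 1 := by omega
    rw [e1, Nat.add_sub_cancel, h1, h2]
    push_cast
    have h3 : 1 / ((k : ℝ) + 1 + 1) ≤ 1 / ((k : ℝ) + 1) := by
      apply one_div_le_one_div_of_le (by positivity); linarith
    have h4 : 2 / ((k : ℝ) + 1) = 1 / ((k : ℝ) + 1) + 1 / ((k : ℝ) + 1) := by ring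
    rw [h4]; linarith

theorem cut_diff {n k : ℕ} (hn : 0 < Hs n) {v v' : ℤ × ℤ} (h1 : k - 1 ≤ nrm v)
    (h2 : nrm v ≤ k + 1) (h1' : k - 1 ≤ nrm v') (h2' : nrm v' ≤ k + 1) :
    (cut n v - cut n v') ^ 2 ≤
      if k ≤ n then 4 / ((max k 1 : ℕ) ^ 2 * Hs n ^ 2) else 0 := by
  split_ifs with hk
  · have e1 : |cut n v - cut n v'| ≤ 2 / ((max k 1 : ℕ) * Hs n) := by
      unfold cut
      refine (abs_max_sub_max_le_abs _ _ _).trans ?_
      have e2 : 1 - Hs (nrm v) / Hs n - (1 - Hs (nrm v') / Hs n) =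
          (Hs (nrm v') - Hs (nrm v)) / Hs n := by ring
      rw [e2, abs_div, abs_of_pos hn, div_le_iff₀ hn]
      have e3 : 2 / ((max k 1 : ℕ) * Hs n) * Hs n = 2 / ((max k 1 : ℕ) : ℝ) := by
        field_simp
      rw [e3]
      refine le_trans ?_ (Hs_gap k)
      have m1 := Hs_mono h1
      have m2 := Hs_mono h2
      have m3 := Hs_mono h1'
      have m4 := Hs_mono h2'
      rw [abs_le]
      constructor <;> linarith
    have e4 : (cut n v - cut n v') ^ 2 = |cut n v - cut n v'| ^ 2 := (sq_abs _).symm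
    rw [e4]
    calc |cut n v - cut n v'| ^ 2 ≤ (2 / ((max k 1 : ℕ) * Hs n)) ^ 2 :=
          pow_le_pow_left₀ (abs_nonneg _) e1 2
      _ = 4 / ((max k 1 : ℕ) ^ 2 * Hs n ^ 2) := by
          rw [div_pow, mul_pow]; norm_num
  · have hz : ∀ u : ℤ × ℤ, k - 1 ≤ nrm u → cut n u = 0 := by
      intro u hu
      unfold cut
      apply max_eq_right
      have : Hs n ≤ Hs (nrm u) := Hs_mono (by omega)
      have : 1 ≤ Hs (nrm u) / Hs n := by rwa [le_div_iff₀ hn, one_mul]
      linarith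
    rw [hz v h1, hz v' h1']
    norm_num

theorem nrm_dir (p : ℤ × ℤ) (k : Fin 6) :
    nrm p - 1 ≤ nrm (p + dir k) ∧ nrm (p + dir k) ≤ nrm p + 1 := by
  obtain ⟨x, y⟩ := p
  fin_cases k <;> simp only [nrm, dir, Matrix.cons_val_zero, Matrix.cons_val_one, Matrix.cons_val,
    Prod.mk_add_mk, Fin.zero_eta, Fin.mk_one, Fin.reduceFinMk] <;> omega

theorem fsum_cut {n : ℕ} (hn : 0 < Hs n) (p : ℤ × ℤ) :
    fsum (fun i j => (cut n i - cut n j) ^ 2) p ≤
      if nrm p ≤ n then 24 / ((max (nrm p) 1 : ℕ) ^ 2 * Hs n ^ 2) else 0 := by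
  have b0 : nrm p - 1 ≤ nrm p ∧ nrm p ≤ nrm p + 1 := by omega
  have b1 := nrm_dir p 0
  have b2 := nrm_dir p 1
  have b3 := nrm_dir p 2
  have c1 := cut_diff hn b0.1 b0.2 b1.1 b1.2
  have c2 := cut_diff hn b0.1 b0.2 b2.1 b2.2
  have c3 := cut_diff hn b1.1 b1.2 b2.1 b2.2
  have c4 := cut_diff hn b0.1 b0.2 b3.1 b3.2
  have c5 := cut_diff hn b2.1 b2.2 b3.1 b3.2
  unfold fsum
  split_ifs with h
  · simp only [h, if_true] at c1 c2 c3 c4 c5
    have e : 24 / (((max (nrm p) 1 : ℕ) : ℝ) ^ 2 * Hs n ^ 2) =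
      6 * (4 / (((max (nrm p) 1 : ℕ) : ℝ) ^ 2 * Hs n ^ 2)) := by ring
    rw [e]
    linarith
  · simp only [h, if_false] at c1 c2 c3 c4 c5
    linarith

theorem cut_support {n : ℕ} (hn : 0 < Hs n) : (Function.support (cut n)).Finite := by
  apply Set.Finite.subset (s := Set.Icc (-(n : ℤ), -(n : ℤ)) ((n : ℤ), (n : ℤ)))
    (Set.finite_Icc _ _)
  intro v hv
  have h1 : nrm v ≤ n := by
    by_contra hcon
    push Not at hcon
    apply hv
    unfold cut
    apply max_eq_right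
    have : Hs n ≤ Hs (nrm v) := Hs_mono hcon.le
    have : 1 ≤ Hs (nrm v) / Hs n := by rwa [le_div_iff₀ hn, one_mul]
    linarith
  unfold nrm at h1
  rw [Set.mem_Icc, Prod.le_def, Prod.le_def]
  simp only
  omega

theorem sum_boxes (n : ℕ) (g : ℕ → ℝ) :
    ∑ v ∈ (range (n + 1)).biUnion (fun k => (Finset.box k : Finset (ℤ × ℤ))), g (nrm v) =
      ∑ k ∈ range (n + 1), ((Finset.box k : Finset (ℤ × ℤ)).card : ℝ) * g k := by
  rw [Finset.sum_biUnion]
  · apply Finset.sum_congr rfl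
    intro k _
    rw [← nsmul_eq_mul, ← Finset.sum_const]
    apply Finset.sum_congr rfl
    intro v hv
    rw [Int.mem_box] at hv
    unfold nrm
    rw [hv]
  · intro a _ b _ hab
    rw [Function.onFun, Finset.disjoint_left]
    intro v hv hv'
    rw [Int.mem_box] at hv hv'
    exact hab (hv.symm.trans hv')

theorem energy_cut {n : ℕ} (h1 : 1 ≤ Hs n) :
    ∑' p, fsum (fun i j => (cut n i - cut n j) ^ 2) p ≤ 432 / Hs n := by
  have hn : 0 < Hs n := by linarith
  set B := (range (n + 1)).biUnion (fun k => (Finset.box k : Finset (ℤ × ℤ))) with hB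
  have hmem : ∀ v, v ∈ B ↔ nrm v ≤ n := by
    intro v
    rw [hB, Finset.mem_biUnion]
    constructor
    · rintro ⟨k, hk, hv⟩
      rw [Int.mem_box] at hv
      rw [Finset.mem_range] at hk
      unfold nrm; omega
    · intro h
      exact ⟨nrm v, by rw [Finset.mem_range]; omega, by rw [Int.mem_box]; rfl⟩
  have h0 : ∀ v, 0 ≤ fsum (fun i j => (cut n i - cut n j) ^ 2) v := by
    intro v; unfold fsum; positivity
  rw [tsum_eq_sum (s := B) (by
    intro v hv
    rw [hmem] at hv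
    have := fsum_cut hn v
    rw [if_neg hv] at this
    exact le_antisymm this (h0 v))]
  calc ∑ v ∈ B, fsum (fun i j => (cut n i - cut n j) ^ 2) v
      ≤ ∑ v ∈ B, 24 / ((max (nrm v) 1 : ℕ) ^ 2 * Hs n ^ 2) := by
        apply Finset.sum_le_sum
        intro v hv
        have := fsum_cut hn v
        rwa [if_pos ((hmem v).mp hv)] at this
    _ = ∑ k ∈ range (n + 1), ((Finset.box k : Finset (ℤ × ℤ)).card : ℝ) *
          (24 / ((max k 1 : ℕ) ^ 2 * Hs n ^ 2)) :=
        sum_boxes n (fun k => 24 / ((max k 1 : ℕ) ^ 2 * Hs n ^ 2))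
    _ ≤ 24 / Hs n ^ 2 + ∑ k ∈ range n, 192 / Hs n ^ 2 * (1 / ((k : ℝ) + 1)) := by
        rw [Finset.sum_range_succ']
        have e0 : ((Finset.box 0 : Finset (ℤ × ℤ)).card : ℝ) *
            (24 / ((max 0 1 : ℕ) ^ 2 * Hs n ^ 2)) = 24 / Hs n ^ 2 := by
          simp
        rw [e0, add_comm]
        apply add_le_add le_rfl
        apply Finset.sum_le_sum
        intro k _
        rw [Int.card_box (by omega), show max (k + 1) 1 = k + 1 by omega]
        push_cast
        apply le_of_eq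
        field_simp
        norm_num
    _ = 24 / Hs n ^ 2 + 192 / Hs n ^ 2 * Hs n := by
        rw [← Finset.mul_sum]; rfl
    _ ≤ 432 / Hs n := by
        have e1 : 192 / Hs n ^ 2 * Hs n = 192 / Hs n := by field_simp
        have e2 : 24 / Hs n ^ 2 ≤ 24 / Hs n := by
          apply div_le_div_of_nonneg_left (by norm_num) hn
          nlinarith
        rw [e1]
        have e3 : 432 / Hs n = 24 / Hs n + 192 / Hs n + 216 / Hs n := by ring
        have e4 : 0 < 216 / Hs n := by positivity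
        rw [e3]
        linarith

theorem exists_cutoff (q : ℤ × ℤ) {ε : ℝ} (hε : 0 < ε) : ∃ η : ℤ × ℤ → ℝ,
    (Function.support η).Finite ∧ 1 / 2 ≤ η q ∧
      ∑' p, fsum (fun i j => (η i - η j) ^ 2) p ≤ ε := by
  have ht : Filter.Tendsto Hs Filter.atTop Filter.atTop :=
    Real.tendsto_sum_range_one_div_nat_succ_atTop
  obtain ⟨n, hn⟩ := (ht.eventually_ge_atTop (max 1 (max (2 * Hs (nrm q)) (432 / ε)))).exists
  have h1 : 1 ≤ Hs n := (le_max_left _ _).trans hn
  have h2 : 2 * Hs (nrm q) ≤ Hs n := ((le_max_left _ _).trans (le_max_right _ _)).trans hn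
  have h3 : 432 / ε ≤ Hs n := ((le_max_right _ _).trans (le_max_right _ _)).trans hn
  have hpos : 0 < Hs n := by linarith
  refine ⟨cut n, cut_support hpos, ?_, (energy_cut h1).trans ?_⟩
  · unfold cut
    apply le_max_of_le_left
    have : Hs (nrm q) / Hs n ≤ 1 / 2 := by
      rw [div_le_iff₀ hpos]; linarith
    linarith
  · rw [div_le_iff₀ hpos]
    rw [div_le_iff₀ hε] at h3
    linarith

/-- **Liouville theorem**: two labels of the hexagonal complex with the same angle sums, bounded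
ratios of neighbouring radii and bounded quotient are proportional. -/
theorem liouville {L w : ℤ × ℤ → ℝ} {κ W : ℝ} (hκ : 0 ≤ κ)
    (hL : ∀ v k, |L v - L (v + dir k)| ≤ κ)
    (hL' : ∀ v k, |(L v + w v) - (L (v + dir k) + w (v + dir k))| ≤ κ)
    (hW : ∀ v, |w v| ≤ W) (hA : ∀ v, ∑ k : Fin 6, dA L w k v = 0) (q : ℤ × ℤ) :
    w (q + dir 0) = w q ∧ w (q + dir 1) = w q := by
  have hl := lam_pos κ
  have key : ∀ ε : ℝ, 0 < ε →
      lam κ / 16 * ((w q - w (q + dir 0)) ^ 2 + (w q - w (q + dir 1)) ^ 2) ≤ W ^ 2 * ε := by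
    intro ε hε
    obtain ⟨η, hη, hq, hE⟩ := exists_cutoff q hε
    have h1 := liouville_ineq hκ hL hL' hW hA hη q
    have h2 : W ^ 2 * ∑' p, fsum (fun i j => (η i - η j) ^ 2) p ≤ W ^ 2 * ε :=
      mul_le_mul_of_nonneg_left hE (by positivity)
    refine le_trans ?_ (h1.trans h2)
    have hq2 : 1 / 4 ≤ η q ^ 2 := by nlinarith
    have h3 : 1 / 4 * ((w q - w (q + dir 0)) ^ 2 + (w q - w (q + dir 1)) ^ 2) ≤
        fsum (fun i j => (η i ^ 2 + η j ^ 2) * (w i - w j) ^ 2) q := by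
      unfold fsum
      have t1 : 1 / 4 * (w q - w (q + dir 0)) ^ 2 ≤
          (η q ^ 2 + η (q + dir 0) ^ 2) * (w q - w (q + dir 0)) ^ 2 :=
        mul_le_mul_of_nonneg_right (by nlinarith [sq_nonneg (η (q + dir 0))]) (sq_nonneg _)
      have t2 : 1 / 4 * (w q - w (q + dir 1)) ^ 2 ≤
          (η q ^ 2 + η (q + dir 1) ^ 2) * (w q - w (q + dir 1)) ^ 2 :=
        mul_le_mul_of_nonneg_right (by nlinarith [sq_nonneg (η (q + dir 1))]) (sq_nonneg _)
      have t3 : 0 ≤ (η (q + dir 0) ^ 2 + η (q + dir 1) ^ 2) *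
        (w (q + dir 0) - w (q + dir 1)) ^ 2 := by positivity
      have t4 : 0 ≤ (η q ^ 2 + η (q + dir 1) ^ 2) * (w q - w (q + dir 1)) ^ 2 := by positivity
      have t5 : 0 ≤ (η q ^ 2 + η (q + dir 2) ^ 2) * (w q - w (q + dir 2)) ^ 2 := by positivity
      have t6 : 0 ≤ (η (q + dir 1) ^ 2 + η (q + dir 2) ^ 2) *
        (w (q + dir 1) - w (q + dir 2)) ^ 2 := by positivity
      linarith
    have h4 := mul_le_mul_of_nonneg_left h3 (show 0 ≤ lam κ / 4 by positivity)
    linarith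
  have hzero : lam κ / 16 * ((w q - w (q + dir 0)) ^ 2 + (w q - w (q + dir 1)) ^ 2) ≤ 0 := by
    apply le_of_forall_pos_le_add
    intro δ hδ
    have := key (δ / (W ^ 2 + 1)) (by positivity)
    have h5 : W ^ 2 * (δ / (W ^ 2 + 1)) ≤ δ := by
      rw [mul_div_assoc', div_le_iff₀ (by positivity)]
      nlinarith [sq_nonneg W]
    linarith
  have h6 : (w q - w (q + dir 0)) ^ 2 + (w q - w (q + dir 1)) ^ 2 ≤ 0 := by
    by_contra hcon
    push Not at hcon
    have : 0 < lam κ / 16 * ((w q - w (q + dir 0)) ^ 2 + (w q - w (q + dir 1)) ^ 2) := by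
      positivity
    linarith
  have h7 := sq_nonneg (w q - w (q + dir 0))
  have h8 := sq_nonneg (w q - w (q + dir 1))
  constructor
  · have : (w q - w (q + dir 0)) ^ 2 = 0 := by linarith
    have := pow_eq_zero_iff (two_ne_zero) |>.mp this
    linarith
  · have : (w q - w (q + dir 1)) ^ 2 = 0 := by linarith
    have := pow_eq_zero_iff (two_ne_zero) |>.mp this
    linarith

end Q184.Doyle
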