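import Pool.Agent.Q184.Doyle.Angle

/-!
The hexagonal complex, its circle packings, and the ring lemma for locally univalent packings.
-/

namespace Q184.Doyle

open Real Finset

/-- the six neighbours of the origin in the hexagonal lattice, in cyclic order:
`1, ω, ω - 1, -1, -ω, 1 - ω` in the coordinates `(n, m) ↔ n + m ω` -/
def dir : Fin 6 → ℤ × ℤ := ![(1, 0), (0, 1), (-1, 1), (-1, 0), (0, -1), (1, -1)]

theorem dir_injective : Function.Injective dir := by decide

theorem dir_add_two (k : Fin 6) : dir k + dir (k + 2) = dir (k + 1) := by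
  revert k; decide

theorem dir_add_three (k : Fin 6) : dir k + dir (k + 3) = 0 := by
  revert k; decide

/-- A circle packing for the hexagonal complex: `R v` is the radius and `z v` the centre of the
circle of the vertex `v`. -/
structure IsPacking (R : ℤ × ℤ → ℝ) (z : ℤ × ℤ → ℂ) : Prop where
  pos : ∀ v, 0 < R v
  angleSum : ∀ v, ∑ k : Fin 6, ang (R v) (R (v + dir k)) (R (v + dir (k + 1))) = 2 * π
  tangent : ∀ v k, dist (z v) (z (v + dir k)) = R v + R (v + dir k)
  oriented : ∀ v k,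
    0 < ((z (v + dir (k + 1)) - z v) * (starRingEnd ℂ) (z (v + dir k) - z v)).im

/-- the vertices of the flower of `v` -/
def flower (v : ℤ × ℤ) : Set (ℤ × ℤ) := insert v (Set.range fun k => v + dir k)

/-- the seven circles of each flower have pairwise disjoint interiors -/
def LocallyUnivalent (R : ℤ × ℤ → ℝ) (z : ℤ × ℤ → ℂ) : Prop :=
  ∀ v, ∀ s ∈ flower v, ∀ t ∈ flower v, s ≠ t →
    Disjoint (Metric.ball (z s) (R s)) (Metric.ball (z t) (R t))

theorem polar {a b : ℂ} {x y w : ℝ} (hx : 0 < x) (hy : 0 < y) (hw : 0 < w)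
    (ha : ‖a‖ = x + y) (hb : ‖b‖ = x + w) (hab : ‖b - a‖ = y + w)
    (him : 0 < (b * (starRingEnd ℂ) a).im) :
    b * (starRingEnd ℂ) a =
      ((x + y : ℝ) : ℂ) * ((x + w : ℝ) : ℂ) * Complex.exp (Complex.I * (ang x y w : ℝ)) := by
  set q := b * (starRingEnd ℂ) a with hq
  have hre : q.re = (x + y) * (x + w) * cos (ang x y w) := by
    have h1 := Complex.normSq_sub b a
    rw [← Complex.sq_norm, ← Complex.sq_norm, ← Complex.sq_norm, ha, hb, hab] at h1
    have h2 : cos (ang x y w) =
        ((x + y) ^ 2 + (x + w) ^ 2 - (y + w) ^ 2) / (2 * (x + y) * (x + w)) := by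
      unfold ang
      have e := ang_cos_eq hx hy hw
      have e1 : 0 < y * w / ((x + y) * (x + w)) := by positivity
      have e2 : y * w / ((x + y) * (x + w)) ≤ 1 := by
        rw [div_le_one (by positivity)]
        nlinarith [mul_pos hx hy, mul_pos hx hw, mul_pos hx hx]
      rw [Real.cos_arccos (by rw [e]; linarith) (by rw [e]; linarith)]
    rw [h2]
    have h3 : q.re = ((x + y) ^ 2 + (x + w) ^ 2 - (y + w) ^ 2) / 2 := by
      rw [hq]; linarith
    rw [h3]
    field_simp
  have hnorm : ‖q‖ = (x + y) * (x + w) := by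
    rw [hq, norm_mul, RCLike.norm_conj, ha, hb]; ring
  have hsin : 0 ≤ sin (ang x y w) := Real.sin_nonneg_of_nonneg_of_le_pi (ang_nonneg _ _ _)
    (ang_le_pi _ _ _)
  have him2 : q.im = (x + y) * (x + w) * sin (ang x y w) := by
    have h1 : q.re ^ 2 + q.im ^ 2 = ((x + y) * (x + w)) ^ 2 := by
      rw [← hnorm, Complex.sq_norm, Complex.normSq_apply]; ring
    have h2 : q.im ^ 2 = ((x + y) * (x + w) * sin (ang x y w)) ^ 2 := by
      have h3 := Real.sin_sq_add_cos_sq (ang x y w)
      have h4 : ((x + y) * (x + w)) ^ 2 * (sin (ang x y w) ^ 2 + cos (ang x y w) ^ 2) =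
        ((x + y) * (x + w)) ^ 2 := by rw [h3, mul_one]
      rw [hre] at h1
      nlinarith
    exact (pow_left_inj₀ him.le (by positivity) two_ne_zero).mp h2
  apply Complex.ext
  · rw [hre, mul_comm Complex.I, Complex.exp_mul_I, ← Complex.ofReal_mul, ← Complex.ofReal_cos,
      ← Complex.ofReal_sin]
    simp [Complex.cos_ofReal_re]
  · rw [him2, mul_comm Complex.I, Complex.exp_mul_I, ← Complex.ofReal_mul, ← Complex.ofReal_cos,
      ← Complex.ofReal_sin]
    simp [Complex.sin_ofReal_re]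

theorem iter_polar {u : ℕ → ℂ} {s A : ℕ → ℝ} (hs : ∀ i, 0 < s i) (hu : ∀ i, ‖u i‖ = s i)
    (h : ∀ i, u (i + 1) * (starRingEnd ℂ) (u i) =
      ((s i : ℝ) : ℂ) * ((s (i + 1) : ℝ) : ℂ) * Complex.exp (Complex.I * (A i : ℝ))) (i m : ℕ) :
    u (i + m) * (starRingEnd ℂ) (u i) = ((s i : ℝ) : ℂ) * ((s (i + m) : ℝ) : ℂ) *
      Complex.exp (Complex.I * ((∑ l ∈ range m, A (i + l) : ℝ) : ℂ)) := by
  have hself : ∀ i, u i * (starRingEnd ℂ) (u i) = ((s i : ℝ) : ℂ) * ((s i : ℝ) : ℂ) := by
    intro i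
    rw [Complex.mul_conj, Complex.normSq_eq_norm_sq, hu i]
    push_cast; ring
  induction m with
  | zero => simp [hself]
  | succ m ih =>
    have hne : (((s (i + m) : ℝ) : ℂ) * ((s (i + m) : ℝ) : ℂ)) ≠ 0 := by
      have := (hs (i + m)).ne'
      exact mul_ne_zero (by exact_mod_cast this) (by exact_mod_cast this)
    apply mul_left_cancel₀ hne
    have e1 : ((s (i + m) : ℝ) : ℂ) * ((s (i + m) : ℝ) : ℂ) * (u (i + (m + 1)) *
        (starRingEnd ℂ) (u i)) = (u (i + m + 1) * (starRingEnd ℂ) (u (i + m))) *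
        (u (i + m) * (starRingEnd ℂ) (u i)) := by
      rw [← hself (i + m), show i + (m + 1) = i + m + 1 by ring]; ring
    rw [e1, h (i + m), ih, Finset.sum_range_succ]
    push_cast
    rw [mul_add, Complex.exp_add, show i + (m + 1) = i + m + 1 by ring]
    ring

/-- linear upper bound of `arcsin` -/
theorem arcsin_le_lin {u : ℝ} (h0 : 0 ≤ u) (h1 : u ≤ 1) : arcsin u ≤ π / 2 * u := by
  have h2 : 0 ≤ arcsin u := Real.arcsin_nonneg.mpr h0
  have h3 := Real.mul_le_sin h2 (Real.arcsin_le_pi_div_two u)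
  rw [Real.sin_arcsin (by linarith) h1] at h3
  have hpi := Real.pi_pos
  have h4 : π / 2 * (2 / π * arcsin u) ≤ π / 2 * u := mul_le_mul_of_nonneg_left h3 (by positivity)
  have h5 : π / 2 * (2 / π * arcsin u) = arcsin u := by field_simp
  linarith

theorem le_arcsin {u : ℝ} (h0 : 0 ≤ u) (h1 : u ≤ 1) : u ≤ arcsin u := by
  have h2 : 0 ≤ arcsin u := Real.arcsin_nonneg.mpr h0
  have h3 := Real.sin_le h2
  rwa [Real.sin_arcsin (by linarith) h1] at h3

/-- sequence of the flower at `v` -/
def dn (i : ℕ) : ℤ × ℤ := dir (Fin.ofNat 6 i)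

theorem dn_succ (i : ℕ) : dn (i + 1) = dir (Fin.ofNat 6 i + 1) := by
  unfold dn
  congr 1
  ext
  simp [Fin.ofNat, Fin.val_add, Nat.add_mod]

theorem dn_add_six (i : ℕ) : dn (i + 6) = dn i := by
  unfold dn
  congr 1
  ext
  simp [Fin.ofNat]

theorem dn_ne {i m : ℕ} (h1 : 1 ≤ m) (h5 : m ≤ 5) : dn i ≠ dn (i + m) := by
  unfold dn
  intro h
  have := dir_injective h
  have h2 := congrArg Fin.val this
  simp only [Fin.ofNat] at h2
  omega

theorem dn_of_fin (k : Fin 6) : dn k = dir k := by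
  unfold dn
  congr 1
  ext
  simp [Fin.ofNat]

section flowerBound

variable {p : ℕ → ℝ}

/-- one step of the lower bound -/
noncomputable def stp (c : ℝ) : ℝ := 2 * c ^ 5 / 243

theorem stp_pos {c : ℝ} (hc : 0 < c) : 0 < stp c := by unfold stp; positivity

theorem stp_le {c : ℝ} (hc : 0 < c) (h1 : c ≤ 1) : stp c ≤ c := by
  unfold stp
  have : c ^ 4 ≤ 1 := pow_le_one₀ hc.le h1
  rw [div_le_iff₀ (by norm_num)]
  nlinarith [mul_le_mul_of_nonneg_left this hc.le, pow_succ c 4]

/-- the number of the flower ratio bound -/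
noncomputable def cstar : ℝ := stp^[5] (1 / 3)

theorem stp_iter_pos (n : ℕ) : 0 < stp^[n] (1 / 3) := by
  induction n with
  | zero => norm_num
  | succ n ih => rw [Function.iterate_succ_apply']; exact stp_pos ih

theorem stp_iter_le (n : ℕ) : stp^[n] (1 / 3) ≤ 1 := by
  induction n with
  | zero => norm_num
  | succ n ih =>
    rw [Function.iterate_succ_apply']
    exact (stp_le (stp_iter_pos n) ih).trans ih

theorem stp_iter_anti : Antitone fun n => stp^[n] (1 / 3) := by
  apply antitone_nat_of_succ_le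
  intro n
  rw [Function.iterate_succ_apply']
  exact stp_le (stp_iter_pos n) (stp_iter_le n)

theorem cstar_pos : 0 < cstar := stp_iter_pos 5

theorem cstar_le_one : cstar ≤ 1 := stp_iter_le 5

theorem flower_step (h0 : ∀ i, 0 < p i) (h1 : ∀ i, p i ≤ 1)
    (hT : ∀ i m, 1 ≤ m → m ≤ 5 → p i * p (i + m) ≤ 2 * ∑ l ∈ range m, p (i + l) * p (i + l + 1))
    (h6 : ∀ i, 2 ≤ ∑ l ∈ range 6, p (i + l) * p (i + l + 1)) {c : ℝ} (hc : 0 < c) {i : ℕ}
    (hi : c ≤ p i) : stp c ≤ p (i + 1) := by
  have hc1 : c ≤ 1 := hi.trans (h1 i)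
  have key : ∀ m, m ≤ 5 → ∑ l ∈ range (m + 1), p (i + l) * p (i + l + 1) ≤
      (3 / c) ^ m * p (i + 1) := by
    intro m
    induction m with
    | zero =>
      intro _
      simp only [zero_add, Finset.sum_range_one, add_zero, pow_zero, one_mul]
      have := mul_le_mul_of_nonneg_right (h1 i) (h0 (i + 1)).le
      linarith
    | succ m ih =>
      intro hm
      have ih' := ih (by omega)
      rw [Finset.sum_range_succ]
      set S := ∑ l ∈ range (m + 1), p (i + l) * p (i + l + 1) with hS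
      have hS0 : 0 ≤ S := Finset.sum_nonneg fun l _ => (mul_pos (h0 _) (h0 _)).le
      have h2 := hT i (m + 1) (by omega) (by omega)
      rw [← hS] at h2
      have h3 : c * p (i + (m + 1)) ≤ 2 * S :=
        (mul_le_mul_of_nonneg_right hi (h0 _).le).trans h2
      have h4 : p (i + (m + 1)) ≤ 2 * S / c := by
        rw [le_div_iff₀ hc]; linarith
      have h5 : p (i + (m + 1)) * p (i + (m + 1) + 1) ≤ p (i + (m + 1)) := by
        have := mul_le_mul_of_nonneg_left (h1 (i + (m + 1) + 1)) (h0 (i + (m + 1))).le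
        linarith
      have h6' : S ≤ S / c := by
        rw [le_div_iff₀ hc]
        have := mul_le_mul_of_nonneg_left hc1 hS0
        linarith
      have h7 : S + p (i + (m + 1)) * p (i + (m + 1) + 1) ≤ 3 / c * S := by
        have e1 : 3 / c * S = S / c + 2 * S / c := by ring
        rw [e1]
        linarith
      calc S + p (i + (m + 1)) * p (i + (m + 1) + 1) ≤ 3 / c * S := h7
        _ ≤ 3 / c * ((3 / c) ^ m * p (i + 1)) :=
            mul_le_mul_of_nonneg_left ih' (by positivity)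
        _ = (3 / c) ^ (m + 1) * p (i + 1) := by ring
  have h7 := (h6 i).trans (key 5 le_rfl)
  unfold stp
  rw [div_pow] at h7
  have hc5 : 0 < c ^ 5 := by positivity
  have h8 : 2 * c ^ 5 ≤ 3 ^ 5 * p (i + 1) := by
    have := mul_le_mul_of_nonneg_right h7 hc5.le
    have e1 : 3 ^ 5 / c ^ 5 * p (i + 1) * c ^ 5 = 3 ^ 5 * p (i + 1) := by field_simp
    rw [e1] at this
    exact this
  rw [div_le_iff₀ (by norm_num)]
  linarith

theorem flower_bound (h0 : ∀ i, 0 < p i) (h1 : ∀ i, p i ≤ 1) (per : ∀ i, p (i + 6) = p i)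
    (hT : ∀ i m, 1 ≤ m → m ≤ 5 → p i * p (i + m) ≤ 2 * ∑ l ∈ range m, p (i + l) * p (i + l + 1))
    (h6 : ∀ i, 2 ≤ ∑ l ∈ range 6, p (i + l) * p (i + l + 1)) (t : ℕ) : cstar ≤ p t := by
  have hex : ∃ i, i < 6 ∧ 1 / 3 ≤ p i := by
    by_contra hcon
    push Not at hcon
    have h2 := h6 0
    have h3 : ∑ l ∈ range 6, p (0 + l) * p (0 + l + 1) < ∑ l ∈ range 6, (1 / 3 : ℝ) := by
      apply Finset.sum_lt_sum_of_nonempty (by simp)
      intro l hl
      rw [Finset.mem_range] at hl
      have h4 := hcon l hl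
      have h5 := h1 (0 + l + 1)
      have h6' := h0 l
      rw [zero_add]
      rw [zero_add] at h5
      nlinarith [h0 (l + 1)]
    simp at h3
    simp at h2
    linarith
  obtain ⟨i, hi6, hi⟩ := hex
  have hstep : ∀ j, stp^[j] (1 / 3) ≤ p (i + j) := by
    intro j
    induction j with
    | zero => simpa using hi
    | succ j ih =>
      rw [Function.iterate_succ_apply']
      exact flower_step h0 h1 hT h6 (stp_iter_pos j) ih
  have hper : Function.Periodic p 6 := per
  have e1 : p t = p (i + (t + 6 - i) % 6) := by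
    rw [← hper.map_mod_nat t, ← hper.map_mod_nat (i + (t + 6 - i) % 6)]
    congr 1
    omega
  rw [e1]
  refine le_trans ?_ (hstep _)
  exact stp_iter_anti (show (t + 6 - i) % 6 ≤ 5 by omega)

end flowerBound

section ring

variable {R : ℤ × ℤ → ℝ} {z : ℤ × ℤ → ℂ}

theorem packing_polar (hP : IsPacking R z) (v : ℤ × ℤ) (k : Fin 6) :
    (z (v + dir (k + 1)) - z v) * (starRingEnd ℂ) (z (v + dir k) - z v) =
      ((R v + R (v + dir k) : ℝ) : ℂ) * ((R v + R (v + dir (k + 1)) : ℝ) : ℂ) *
        Complex.exp (Complex.I * (ang (R v) (R (v + dir k)) (R (v + dir (k + 1))) : ℝ)) := by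
  apply polar (hP.pos _) (hP.pos _) (hP.pos _)
  · rw [← hP.tangent v k, dist_comm, Complex.dist_eq]
  · rw [← hP.tangent v (k + 1), dist_comm, Complex.dist_eq]
  · have h1 := hP.tangent (v + dir k) (k + 2)
    rw [add_assoc, dir_add_two] at h1
    rw [← h1, dist_comm, Complex.dist_eq]
    congr 1
    ring
  · exact hP.oriented v k

theorem far_bound (hP : IsPacking R z) (hU : LocallyUnivalent R z) (v : ℤ × ℤ) (i m : ℕ)
    (h1 : 1 ≤ m) (h5 : m ≤ 5)
    (hsum : ∑ l ∈ range m, ang (R v) (R (v + dn (i + l))) (R (v + dn (i + l + 1))) ≤ π) :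
    ang (R v) (R (v + dn i)) (R (v + dn (i + m))) ≤
      ∑ l ∈ range m, ang (R v) (R (v + dn (i + l))) (R (v + dn (i + l + 1))) := by
  have hs : ∀ i, 0 < R v + R (v + dn i) := fun i => add_pos (hP.pos _) (hP.pos _)
  have hu : ∀ i, ‖z (v + dn i) - z v‖ = R v + R (v + dn i) := by
    intro i
    rw [← Complex.dist_eq, dist_comm]
    exact hP.tangent v _
  have hpol := iter_polar (u := fun i => z (v + dn i) - z v) (s := fun i => R v + R (v + dn i))
    (A := fun i => ang (R v) (R (v + dn i)) (R (v + dn (i + 1)))) hs hu (by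
      intro i
      rw [dn_succ]
      exact packing_polar hP v (Fin.ofNat 6 i)) i m
  set x := R v with hx
  set y := R (v + dn i) with hy
  set w := R (v + dn (i + m)) with hw
  have px : 0 < x := hP.pos _
  have py : 0 < y := hP.pos _
  have pw : 0 < w := hP.pos _
  set Θ := ∑ l ∈ range m, ang x (R (v + dn (i + l))) (R (v + dn (i + l + 1))) with hΘ
  have hΘ0 : 0 ≤ Θ := Finset.sum_nonneg fun l _ => ang_nonneg _ _ _
  have hdis := hU v (v + dn i) (Or.inr ⟨_, rfl⟩) (v + dn (i + m)) (Or.inr ⟨_, rfl⟩) (by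
    intro h
    exact dn_ne h1 h5 (add_left_cancel h))
  rw [disjoint_ball_ball_iff (hP.pos _) (hP.pos _)] at hdis
  have h2 := Complex.normSq_sub (z (v + dn (i + m)) - z v) (z (v + dn i) - z v)
  have e1 : z (v + dn (i + m)) - z v - (z (v + dn i) - z v) = z (v + dn (i + m)) - z (v + dn i) := by
    ring
  rw [e1, ← Complex.sq_norm, ← Complex.sq_norm, ← Complex.sq_norm, hu, hu, hpol, ← Complex.dist_eq]
    at h2
  have e2 : (((x + y : ℝ) : ℂ) * ((x + w : ℝ) : ℂ) * Complex.exp (Complex.I * (Θ : ℝ))).re =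
      (x + y) * (x + w) * cos Θ := by
    rw [mul_comm Complex.I, Complex.exp_mul_I, ← Complex.ofReal_mul, ← Complex.ofReal_cos,
      ← Complex.ofReal_sin]
    simp [Complex.cos_ofReal_re]
  rw [e2] at h2
  rw [dist_comm] at h2
  have h3 : (y + w) ^ 2 ≤ (x + w) ^ 2 + (x + y) ^ 2 - 2 * ((x + y) * (x + w) * cos Θ) := by
    rw [← h2]
    exact pow_le_pow_left₀ (by positivity) hdis 2
  have h4 : cos Θ ≤ ((x + y) ^ 2 + (x + w) ^ 2 - (y + w) ^ 2) / (2 * (x + y) * (x + w)) := by
    rw [le_div_iff₀ (by positivity)]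
    linarith
  calc ang x y w ≤ arccos (cos Θ) := Real.arccos_le_arccos h4
    _ = Θ := Real.arccos_cos hΘ0 hsum

theorem packing_pp_bound (hP : IsPacking R z) (hU : LocallyUnivalent R z) (v : ℤ × ℤ) (t : ℕ) :
    cstar ≤ pp (R v) (R (v + dn t)) := by
  have hpi := Real.pi_pos
  have q0 : ∀ i, 0 < pp (R v) (R (v + dn i)) := fun i => pp_pos (hP.pos _) (hP.pos _)
  have q1 : ∀ i, pp (R v) (R (v + dn i)) ≤ 1 := fun i => pp_le_one (hP.pos _) (hP.pos _)
  have q01 : ∀ i j, 0 ≤ pp (R v) (R (v + dn i)) * pp (R v) (R (v + dn j)) := fun i j =>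
    (mul_pos (q0 i) (q0 j)).le
  have q11 : ∀ i j, pp (R v) (R (v + dn i)) * pp (R v) (R (v + dn j)) ≤ 1 := fun i j =>
    mul_le_one₀ (q1 i) (q0 j).le (q1 j)
  have hang : ∀ i j, ang (R v) (R (v + dn i)) (R (v + dn j)) =
      2 * arcsin (pp (R v) (R (v + dn i)) * pp (R v) (R (v + dn j))) := fun i j =>
    ang_eq_arcsin (hP.pos _) (hP.pos _) (hP.pos _)
  have hangle : ∀ i j, ang (R v) (R (v + dn i)) (R (v + dn j)) ≤
      π * (pp (R v) (R (v + dn i)) * pp (R v) (R (v + dn j))) := by
    intro i j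
    rw [hang]
    have := arcsin_le_lin (q01 i j) (q11 i j)
    linarith
  have hper : ∀ i, pp (R v) (R (v + dn (i + 6))) = pp (R v) (R (v + dn i)) := by
    intro i; rw [dn_add_six]
  apply flower_bound (p := fun i => pp (R v) (R (v + dn i))) q0 q1 hper
  · intro i m h1 h5
    set T := ∑ l ∈ range m, pp (R v) (R (v + dn (i + l))) * pp (R v) (R (v + dn (i + l + 1)))
      with hT
    rcases le_or_gt T 1 with hT1 | hT1
    · have h2 : ∑ l ∈ range m, ang (R v) (R (v + dn (i + l))) (R (v + dn (i + l + 1))) ≤ π * T := by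
        rw [hT, Finset.mul_sum]
        exact Finset.sum_le_sum fun l _ => hangle _ _
      have h3 : ∑ l ∈ range m, ang (R v) (R (v + dn (i + l))) (R (v + dn (i + l + 1))) ≤ π := by
        nlinarith
      have h4 := far_bound hP hU v i m h1 h5 h3
      rw [hang i (i + m)] at h4
      have h6 := le_arcsin (q01 i (i + m)) (q11 i (i + m))
      have h7 : π * T ≤ 4 * T := by
        have hT0 : 0 ≤ T := Finset.sum_nonneg fun l _ => q01 _ _
        nlinarith [Real.pi_le_four]
      linarith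
    · have := q11 i (i + m)
      linarith
  · intro i
    have hall : ∀ i, ∑ l ∈ range 6, ang (R v) (R (v + dn (i + l))) (R (v + dn (i + l + 1))) =
        2 * π := by
      intro i
      induction i with
      | zero =>
        rw [← hP.angleSum v, Finset.sum_range]
        apply Finset.sum_congr rfl
        intro k _
        rw [zero_add, dn_of_fin, dn_succ]
        have : Fin.ofNat 6 (k : ℕ) = k := by ext; simp [Fin.ofNat]
        rw [this]
      | succ i ih =>
        rw [← ih]
        rw [Finset.sum_range_succ, Finset.sum_range_succ' _ 5]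
        have g1 : ∑ l ∈ range 5, ang (R v) (R (v + dn (i + 1 + l))) (R (v + dn (i + 1 + l + 1))) =
            ∑ l ∈ range 5, ang (R v) (R (v + dn (i + (l + 1)))) (R (v + dn (i + (l + 1) + 1))) := by
          apply Finset.sum_congr rfl
          intro l _
          rw [show i + 1 + l = i + (l + 1) by ring]
        have g2 : ang (R v) (R (v + dn (i + 1 + 5))) (R (v + dn (i + 1 + 5 + 1))) =
            ang (R v) (R (v + dn (i + 0))) (R (v + dn (i + 0 + 1))) := by
          rw [show i + 1 + 5 = i + 6 by ring, show i + 6 + 1 = (i + 1) + 6 by ring, dn_add_six,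
            dn_add_six, add_zero]
        rw [g1, g2]
    have h2 : 2 * π ≤ π * ∑ l ∈ range 6,
        pp (R v) (R (v + dn (i + l))) * pp (R v) (R (v + dn (i + l + 1))) := by
      rw [← hall i, Finset.mul_sum]
      exact Finset.sum_le_sum fun l _ => hangle _ _
    nlinarith

/-- **Ring lemma** for locally univalent packings of the hexagonal complex. -/
theorem ring_lemma (hP : IsPacking R z) (hU : LocallyUnivalent R z) (v : ℤ × ℤ) (k : Fin 6) :
    cstar ^ 2 * R v ≤ R (v + dir k) ∧ cstar ^ 2 * R (v + dir k) ≤ R v := by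
  have key : ∀ (v : ℤ × ℤ) (k : Fin 6), cstar ^ 2 * R v ≤ R (v + dir k) := by
    intro v k
    have h1 := packing_pp_bound hP hU v k
    rw [dn_of_fin] at h1
    have h2 : cstar ^ 2 ≤ pp (R v) (R (v + dir k)) ^ 2 :=
      pow_le_pow_left₀ cstar_pos.le h1 2
    have pv := hP.pos v
    have pk := hP.pos (v + dir k)
    rw [pp_sq pv pk, le_div_iff₀ (by positivity)] at h2
    have : 0 < cstar ^ 2 * R (v + dir k) := mul_pos (pow_pos cstar_pos 2) pk
    linarith
  refine ⟨key v k, ?_⟩
  have h1 := key (v + dir k) (k + 3)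
  rwa [add_assoc, dir_add_three, add_zero] at h1

theorem log_bound (hP : IsPacking R z) (hU : LocallyUnivalent R z) (v : ℤ × ℤ) (k : Fin 6) :
    |log (R v) - log (R (v + dir k))| ≤ -2 * log cstar := by
  obtain ⟨h1, h2⟩ := ring_lemma hP hU v k
  have pv := hP.pos v
  have pk := hP.pos (v + dir k)
  have pc : 0 < cstar ^ 2 := pow_pos cstar_pos 2
  have l1 := Real.log_le_log (mul_pos pc pv) h1
  have l2 := Real.log_le_log (mul_pos pc pk) h2
  rw [Real.log_mul pc.ne' pv.ne', Real.log_pow] at l1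
  rw [Real.log_mul pc.ne' pk.ne', Real.log_pow] at l2
  push_cast at l1 l2
  rw [abs_le]
  constructor <;> linarith

end ring

end Q184.Doyle
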